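import Mathlib
import Pool.Agent.KS6_5.Owings.Groups

set_option autoImplicit false

namespace Pool.Agent.Results.MP_d5cc4e_co.NonTorsion

universe u

/-- Every `r`-colouring of `M` has an infinite set `X` with `X + X` monochromatic
(repeated summands allowed); that is, `rd(M) > r`. -/
def Good (M : Type u) [Add M] (r : ℕ) : Prop :=
  ∀ c : M → Fin r, ∃ X : Set M, X.Infinite ∧ ∃ i : Fin r, ∀ x ∈ X, ∀ y ∈ X, c (x + y) = i

theorem result :
    (∀ (M : Type u) [AddMonoid M] (g : M), Function.Injective (fun n : ℕ => n • g) → Good M 2) ∧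
    (∀ (G : Type u) [AddCommGroup G] [AddGroup.FG G] [Infinite G], Good G 2 ∧ ¬ Good G 3) ∧
    Good ℚ 2 ∧ ¬ Good (ℕ →₀ ZMod 2) 2 ∧
    (∀ (p : ℕ) [Fact p.Prime], ¬ IsSquare (2 : ZMod p) → ¬ Good (ℕ →₀ ZMod p) 2) := by
  refine ⟨fun M _ g hg => Pool.Agent.KS6_5.Owings.good_two g hg, fun G _ _ _ => ⟨?_, ?_⟩, ?_,
    Pool.Agent.KS6_5.Owings.not_good_two_two,
    fun p _ h => Pool.Agent.KS6_5.Owings.not_good_two_prime p h⟩
  · exact Pool.Agent.KS6_5.Owings.good_two_fg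
  · exact Pool.Agent.KS6_5.Owings.not_good_three_fg
  · refine Pool.Agent.KS6_5.Owings.good_two (1 : ℚ) (fun a b h => ?_)
    simpa using h

end Pool.Agent.Results.MP_d5cc4e_co.NonTorsion
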